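import Pool.Agent.NTS.StmtsE
import Pool.Agent.Helper33_PFJ.Stc

/-!
# NTS squad, row EXV: the vertices of a top simplex are extreme
-/

set_option autoImplicit false

open Matrix Filter Topology

namespace Pool.Agent.NTS.H56

open Pool.Agent.PFS Pool.Agent.PFJ Pool.Agent.NTS

variable {n : ℕ}

/-- splitting of a vector which is not extreme -/
theorem ex_split {C : Set (V n)} (h : PCone C) {x y : V n} {M : ℝ} (hx : x ∈ closure C)
    (hx0 : x ≠ 0) (hy : y ∈ closure C) (hMy : M • x - y ∈ closure C)
    (hn : ¬ ∃ c : ℝ, y = c • x) :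
    ∃ a b : V n, a ∈ closure C ∧ b ∈ closure C ∧ a ≠ 0 ∧ b ≠ 0 ∧ x = a + b ∧
      (∀ N : ℝ, 0 < N → N • b - a ∉ closure C) ∧ ∀ N : ℝ, 0 < N → N • a - b ∉ closure C := by
  have hI : Ind2 x y := by
    intro s t hst
    have ht : t = 0 := by
      by_contra ht
      apply hn
      refine ⟨-(s / t), ?_⟩
      have h1 : t • y = -(s • x) := by
        rw [eq_neg_iff_add_eq_zero, add_comm]
        exact hst
      have h2 : y = t⁻¹ • (t • y) := by rw [smul_smul, inv_mul_cancel₀ ht, one_smul]
      rw [h2, h1, smul_neg, smul_smul, neg_smul]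
      congr 2
      field_simp
    rw [ht, zero_smul, add_zero] at hst
    rcases smul_eq_zero.mp hst with h1 | h1
    · exact ⟨h1, ht⟩
    · exact absurd h1 hx0
  obtain ⟨e0, e1, he0, he1, hc0, hc1, hn1, hn2⟩ := H33.plane h hx hy hI
  have hv1 : x - e0 • y ≠ 0 := by
    intro h0
    have h1 := (hI 1 (-e0) (by rw [← h0]; module)).1
    exact one_ne_zero h1
  have hv2 : y - e1 • x ≠ 0 := by
    intro h0
    have h1 := (hI (-e1) 1 (by rw [← h0]; module)).2
    exact one_ne_zero h1
  have he0' : 0 < e0 := by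
    rcases he0.eq_or_lt with h0 | h0
    · exfalso
      apply hn2 (max M 1) (lt_max_of_lt_right one_pos)
      rw [← h0, zero_smul, sub_zero]
      have h1 : max M 1 • x - (y - e1 • x) = (M • x - y) + (max M 1 - M + e1) • x := by module
      rw [h1]
      refine h.cl_add hMy (h.cl_smul hx ?_)
      have := le_max_left M 1
      linarith
    · exact h0
  have hsum : (1 - e0 * e1) • x = (x - e0 • y) + e0 • (y - e1 • x) := by module
  have hlt : 0 < 1 - e0 * e1 := by
    by_contra hcon
    have hge : 0 ≤ e0 * e1 - 1 := by linarith [not_lt.mp hcon]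
    have h1 : -(x - e0 • y) ∈ closure C := by
      have h2 := h.cl_add (h.cl_smul hc1 he0) (h.cl_smul hx hge)
      have h3 : e0 • (y - e1 • x) + (e0 * e1 - 1) • x = -(x - e0 • y) := by module
      rwa [h3] at h2
    exact hv1 (h.salient _ hc0 h1)
  set α : ℝ := (1 - e0 * e1)⁻¹ with hα
  have hα0 : 0 < α := inv_pos.mpr hlt
  refine ⟨α • (x - e0 • y), (α * e0) • (y - e1 • x), h.cl_smul hc0 hα0.le,
    h.cl_smul hc1 (mul_pos hα0 he0').le, smul_ne_zero hα0.ne' hv1,
    smul_ne_zero (mul_pos hα0 he0').ne' hv2, ?_, ?_, ?_⟩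
  · rw [mul_smul, ← smul_add, ← hsum, smul_smul, hα, inv_mul_cancel₀ hlt.ne', one_smul]
  · intro N hN hmem
    apply hn1 (N * e0) (mul_pos hN he0')
    have h1 : N • (α * e0) • (y - e1 • x) - α • (x - e0 • y) =
        α • ((N * e0) • (y - e1 • x) - (x - e0 • y)) := by module
    rw [h1, h.cl_smul_iff hα0] at hmem
    exact hmem
  · intro N hN hmem
    apply hn2 (N / e0) (div_pos hN he0')
    have h1 : N • α • (x - e0 • y) - (α * e0) • (y - e1 • x) =
        (α * e0) • ((N / e0) • (x - e0 • y) - (y - e1 • x)) := by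
      have h3 : (α * e0) • ((N / e0) • (x - e0 • y)) = N • α • (x - e0 • y) := by
        rw [smul_smul, smul_smul]
        congr 1
        field_simp
      rw [smul_sub (α * e0) ((N / e0) • (x - e0 • y)), h3]
    rw [h1, h.cl_smul_iff (mul_pos hα0 he0')] at hmem
    exact hmem

theorem exv (nng : NngStmt) : ExvStmt := by
  classical
  intro n C Γ h K hK hmax w hw i y hy M0 hMy
  by_contra hn
  have H := h.hul
  have hwcl : ∀ i, w i ∈ closure C := fun i => H.lamCl _ (hw.2 i)
  have hx0 : w i ≠ 0 := H.lamNe _ (hw.2 i)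
  obtain ⟨a, b, hac, hbc, ha0, hb0, hab, hnb, hna⟩ :=
    ex_split h.toPCone (hwcl i) hx0 hy hMy hn
  have haL : a ∈ LamC C Γ := H37.flmF n C Γ h (w i) (hw.2 i) a hac ha0 (by
    rw [hab, add_sub_cancel_left]; exact hbc)
  have hbL : b ∈ LamC C Γ := H37.flmF n C Γ h (w i) (hw.2 i) b hbc hb0 (by
    rw [hab, add_sub_cancel_right]; exact hac)
  let R : V n := ∑ j ∈ Finset.univ.erase i, w j
  let t : ℕ → ℝ := fun m => 1 / ((m : ℝ) + 1)
  have ht0 : ∀ m, 0 < t m := fun m => by simp only [t]; positivity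
  have htlim : Tendsto t atTop (𝓝 0) := tendsto_one_div_add_atTop_nhds_zero_nat
  let p : ℕ → V n := fun m => w i + t m • R
  have hp : ∀ m, p m = ∑ j, (if j = i then (1 : ℝ) else t m) • w j := by
    intro m
    rw [← Finset.add_sum_erase _ _ (Finset.mem_univ i), if_pos rfl, one_smul]
    simp only [p, R]
    rw [Finset.smul_sum]
    congr 1
    refine Finset.sum_congr rfl fun j hj => ?_
    rw [if_neg (Finset.ne_of_mem_erase hj)]
  have hc0 : ∀ m j, 0 < (if j = i then (1 : ℝ) else t m) := by
    intro m j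
    split_ifs
    · exact one_pos
    · exact ht0 m
  have hpC : ∀ m, p m ∈ C := fun m => by
    rw [hp]
    exact hw.1.pos _ (hc0 m)
  have hpH : ∀ m, p m ∈ Hull C Γ := fun m => by
    rw [hp]
    exact (H60.elm n C Γ h (Fin K) w hw).2.2.2.1 _ (hc0 m)
  obtain ⟨φ, g, s, p0, hφm, hg, hs, hp0, hlimp⟩ := H60.zom n C Γ h p hpC hpH
  let f : ℕ → Option (Fin K) → V n := fun m o =>
    match o with
    | none => b
    | some j => if j = i then a else t m • w j
  have hfH : ∀ m o, f m o ∈ Hull C Γ := by
    rintro m (_ | j)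
    · exact H.lamHull _ hbL
    · simp only [f]
      split_ifs
      · exact H.lamHull _ haL
      · exact H.smul _ (H.lamHull _ (hw.2 j)) _ (ht0 m)
  have hfi : ∀ m, f m (some i) = a := fun m => by simp [f]
  have hfj : ∀ m j, j ≠ i → f m (some j) = t m • w j := fun m j h1 => by simp [f, h1]
  have hfsum : ∀ m, ∑ o, f m o = p m := by
    intro m
    rw [Fintype.sum_option]
    have h1 : ∑ j, f m (some j) = a + t m • R := by
      rw [← Finset.add_sum_erase _ _ (Finset.mem_univ i), hfi]
      simp only [R]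
      rw [Finset.smul_sum]
      congr 1
      exact Finset.sum_congr rfl fun j hj => hfj m j (Finset.ne_of_mem_erase hj)
    rw [h1]
    simp only [p]
    rw [hab]
    simp only [f]
    abel
  let X : ℕ → Option (Fin K) → V n := fun m o => s m • act (g m) (f (φ m) o)
  have hsumX : ∀ m, ∑ o, X m o = s m • act (g m) (p (φ m)) := by
    intro m
    simp only [X]
    rw [← Finset.smul_sum, ← CC.act_sum, hfsum]
  have hXH : ∀ m o, X m o ∈ Hull C Γ := fun m o =>
    H.smul _ (H.act _ (hfH _ o) _ (hg m)) _ (hs m)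
  have hcard : 2 ≤ Fintype.card (Option (Fin K)) := by
    rw [Fintype.card_option, Fintype.card_fin]; omega
  have hlimX : Tendsto (fun m => ∑ o, X m o) atTop (𝓝 p0) := by
    simp only [hsumX]; exact hlimp
  obtain ⟨ψ, W, hψ, hWlim, hWsum, hW⟩ :=
    H37.limF n C Γ h (Option (Fin K)) hcard X p0 hXH hp0 hlimX
  have hcomp : Tendsto (fun m => φ (ψ m)) atTop atTop :=
    hφm.tendsto_atTop.comp hψ.tendsto_atTop
  have hgen : ∀ o : Option (Fin K), ∑ j ∈ Finset.univ.erase o, W j ∈ C →
      ∃ M : ℝ, 0 < M ∧ ∀ᶠ m in atTop,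
        M • (p (φ (ψ m)) - f (φ (ψ m)) o) - f (φ (ψ m)) o ∈ C := by
    intro o hmem
    obtain ⟨M, hM, hMC⟩ := h.absorb hmem (W o)
    refine ⟨M, hM, ?_⟩
    have hl2 : Tendsto (fun m => M • (∑ j ∈ Finset.univ.erase o, X (ψ m) j) - X (ψ m) o) atTop
        (𝓝 (M • (∑ j ∈ Finset.univ.erase o, W j) - W o)) :=
      ((tendsto_finsetSum _ fun j _ => hWlim j).const_smul M).sub (hWlim o)
    filter_upwards [hl2.eventually (h.isOpen.mem_nhds hMC)] with m hm
    have hm' : M • (∑ j ∈ Finset.univ.erase o, X (ψ m) j) - X (ψ m) o ∈ C := hm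
    have e : M • (∑ j ∈ Finset.univ.erase o, X (ψ m) j) - X (ψ m) o
        = s (ψ m) • act (g (ψ m)) (M • (p (φ (ψ m)) - f (φ (ψ m)) o) - f (φ (ψ m)) o) := by
      rw [Finset.sum_erase_eq_sub (Finset.mem_univ _), hsumX]
      simp only [X]
      rw [CC.act_sub, CC.act_smul, CC.act_sub]
      module
    rw [e, h.sact_mem_iff (hg _) (hs _)] at hm'
    exact hm'
  have hlim0 : ∀ (M : ℝ) (v : V n),
      Tendsto (fun m => M • (p (φ (ψ m)) - v) - v) atTop (𝓝 (M • (w i - v) - v)) := by
    intro M v
    have h1 : Tendsto (fun m => p (φ (ψ m))) atTop (𝓝 (w i + (0 : ℝ) • R)) :=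
      tendsto_const_nhds.add ((htlim.comp hcomp).smul_const R)
    rw [zero_smul, add_zero] at h1
    exact ((h1.sub tendsto_const_nhds).const_smul M).sub tendsto_const_nhds
  have hPES : IsPES C Γ W := by
    apply hW
    rintro (_ | l) hmem
    · -- omit b
      obtain ⟨M, hM, hev⟩ := hgen none hmem
      have hev' : ∀ᶠ m in atTop, M • (p (φ (ψ m)) - b) - b ∈ C := hev
      have h1 : M • (w i - b) - b ∈ closure C :=
        isClosed_closure.mem_of_tendsto (hlim0 M b) (hev'.mono fun m hm => subset_closure hm)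
      rw [hab, add_sub_cancel_right] at h1
      exact hna M hM h1
    · by_cases hli : l = i
      · subst hli
        obtain ⟨M, hM, hev⟩ := hgen (some l) hmem
        simp only [hfi] at hev
        have h1 : M • (w l - a) - a ∈ closure C :=
          isClosed_closure.mem_of_tendsto (hlim0 M a) (hev.mono fun m hm => subset_closure hm)
        rw [hab, add_sub_cancel_left] at h1
        exact hnb M hM h1
      · obtain ⟨M, hM, hev⟩ := hgen (some l) hmem
        obtain ⟨m, hm⟩ := hev.exists
        rw [hfj _ l hli] at hm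
        set τ := t (φ (ψ m)) with hτ
        have hτ0 : 0 < τ := ht0 _
        let c : Fin K → ℝ := fun j => M * (if j = i then (1 : ℝ) else τ) -
          if j = l then (M + 1) * τ else 0
        have hcs : ∑ j, c j • w j = M • (p (φ (ψ m)) - τ • w l) - τ • w l := by
          simp only [c, sub_smul, Finset.sum_sub_distrib, mul_smul, ← Finset.smul_sum, ite_smul,
            zero_smul]
          rw [Finset.sum_ite_eq' Finset.univ l, if_pos (Finset.mem_univ l), hp]
          simp only [ite_smul, one_smul]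
          rw [← hτ]
          module
        have h2 := nng n C h.toPCone (Fin K) w hw.1 c (by
          rw [hcs]
          exact subset_closure hm) l
        simp only [c, if_neg hli, if_true] at h2
        nlinarith
  have hcardK : Fintype.card (Option (Fin K)) = K + 1 := by
    rw [Fintype.card_option, Fintype.card_fin]
  have e := Fintype.equivFinOfCardEq hcardK
  have hfin := (H60.elm n C Γ h (Option (Fin K)) W hPES).2.2.1 (Fin (K + 1)) e.symm
  have := hmax (K + 1) _ hfin
  omega

end Pool.Agent.NTS.H56
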