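import Pool.Agent.NTS.StmtsE

/-!
# NTS squad, row VTX: a vertex which dominates along a sequence is shared
-/

set_option autoImplicit false

open Matrix Filter Topology

namespace Pool.Agent.NTS.H56

open Pool.Agent.PFS Pool.Agent.PFJ Pool.Agent.NTS

variable {n : ℕ}

theorem vt_zpow {v : ℕ → ℤ} (hv : ∀ A : ℤ, ∀ᶠ N in atTop, A ≤ v N) :
    Tendsto (fun N => (2 : ℝ) ^ (-(v N))) atTop (𝓝 0) := by
  rw [Metric.tendsto_atTop]
  intro ε hε
  obtain ⟨k, hk⟩ := exists_pow_lt_of_lt_one hε (by norm_num : (1 / 2 : ℝ) < 1)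
  obtain ⟨N0, hN0⟩ := (hv (k : ℤ)).exists_forall_of_atTop
  refine ⟨N0, fun N hN => ?_⟩
  rw [Real.dist_eq, sub_zero, abs_of_pos (by positivity)]
  refine lt_of_le_of_lt ?_ hk
  calc (2 : ℝ) ^ (-(v N)) ≤ (2 : ℝ) ^ (-(k : ℤ)) :=
        zpow_le_zpow_right₀ (by norm_num) (by have := hN0 N hN; linarith)
    _ = (1 / 2 : ℝ) ^ k := by
        rw [_root_.zpow_neg, zpow_natCast, one_div, inv_pow]

theorem vtx : VtxStmt := by
  classical
  intro n C h K w w' i M L u hwi hwi0 hw'i hext hnear hdom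
  choose c hc0 hcL1 hcL2 hlo hup using hnear
  have hL : 0 < L := by
    have h1 : (0 : ℝ) < L * c 0 i := lt_of_lt_of_le (by positivity) (hcL1 0 i)
    exact (mul_pos_iff_of_pos_right (hc0 0 i)).mp h1
  let s : ℕ → ℝ := fun N => (2 : ℝ) ^ (-(u N i))
  have hs : ∀ N, 0 < s N := fun N => by simp only [s]; positivity
  have hs2 : ∀ N j, s N * (2 : ℝ) ^ (u N j) = (2 : ℝ) ^ (-(u N i - u N j)) := by
    intro N j
    simp only [s]
    rw [← zpow_add₀ (by norm_num : (2 : ℝ) ≠ 0)]
    congr 1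
    ring
  have hsi : ∀ N, s N * (2 : ℝ) ^ (u N i) = 1 := by
    intro N
    rw [hs2, sub_self, neg_zero, zpow_zero]
  have hz : ∀ j, j ≠ i → Tendsto (fun N => s N * (2 : ℝ) ^ (u N j)) atTop (𝓝 0) := by
    intro j hj
    simp only [hs2]
    exact vt_zpow (hdom j hj)
  -- the coefficient of the vertex i
  have hi1 : ∀ N, s N * c N i ∈ Set.Icc L⁻¹ L := by
    intro N
    have h1 := mul_le_mul_of_nonneg_left (hcL1 N i) (hs N).le
    have h2 := mul_le_mul_of_nonneg_left (hcL2 N i) (hs N).le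
    rw [hsi] at h1
    have h3 : s N * (L * (2 : ℝ) ^ (u N i)) = L := by
      rw [mul_left_comm, hsi, mul_one]
    rw [h3] at h2
    refine ⟨?_, h2⟩
    rw [inv_le_iff_one_le_mul₀ hL]
    calc 1 ≤ s N * (L * c N i) := h1
      _ = s N * c N i * L := by ring
  obtain ⟨d, hd, φ, hφ, hlim⟩ := isCompact_Icc.tendsto_subseq hi1
  have hd0 : 0 < d := lt_of_lt_of_le (inv_pos.mpr hL) hd.1
  have hφt := hφ.tendsto_atTop
  have hj1 : ∀ j, j ≠ i → Tendsto (fun N => s N * c N j) atTop (𝓝 0) := by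
    intro j hj
    have h1 : Tendsto (fun N => L * (s N * (2 : ℝ) ^ (u N j))) atTop (𝓝 0) := by
      have := (hz j hj).const_mul L
      rwa [mul_zero] at this
    refine squeeze_zero (fun N => (mul_pos (hs N) (hc0 N j)).le) (fun N => ?_) h1
    calc s N * c N j ≤ s N * (L * (2 : ℝ) ^ (u N j)) :=
          mul_le_mul_of_nonneg_left (hcL2 N j) (hs N).le
      _ = L * (s N * (2 : ℝ) ^ (u N j)) := by ring
  -- the limits
  have hA : Tendsto (fun m => ∑ j, (s (φ m) * c (φ m) j) • w' j) atTop (𝓝 (d • w' i)) := by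
    have h1 : Tendsto (fun m => ∑ j, (s (φ m) * c (φ m) j) • w' j) atTop
        (𝓝 (∑ j, (if j = i then d else 0) • w' j)) := by
      refine tendsto_finsetSum _ fun j _ => ?_
      by_cases hj : j = i
      · subst hj
        rw [if_pos rfl]
        exact hlim.smul_const _
      · rw [if_neg hj]
        exact ((hj1 j hj).comp hφt).smul_const _
    have h2 : ∑ j, (if j = i then d else 0) • w' j = d • w' i := by
      simp only [ite_smul, zero_smul]
      rw [Finset.sum_ite_eq' Finset.univ i, if_pos (Finset.mem_univ i)]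
    rwa [h2] at h1
  have hB : Tendsto (fun m => ∑ j, (s (φ m) * (2 : ℝ) ^ (u (φ m) j)) • w j) atTop
      (𝓝 (w i)) := by
    have h1 : Tendsto (fun m => ∑ j, (s (φ m) * (2 : ℝ) ^ (u (φ m) j)) • w j) atTop
        (𝓝 (∑ j, (if j = i then (1 : ℝ) else 0) • w j)) := by
      refine tendsto_finsetSum _ fun j _ => ?_
      by_cases hj : j = i
      · subst hj
        rw [if_pos rfl]
        simp only [hsi]
        exact tendsto_const_nhds
      · rw [if_neg hj]
        exact ((hz j hj).comp hφt).smul_const _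
    have h2 : ∑ j, (if j = i then (1 : ℝ) else 0) • w j = w i := by
      simp only [ite_smul, zero_smul, one_smul]
      rw [Finset.sum_ite_eq' Finset.univ i, if_pos (Finset.mem_univ i)]
    rwa [h2] at h1
  have hsA : ∀ N, s N • ∑ j, c N j • w' j = ∑ j, (s N * c N j) • w' j := by
    intro N
    rw [Finset.smul_sum]
    exact Finset.sum_congr rfl fun j _ => smul_smul _ _ _
  have hsB : ∀ N, s N • pt w (u N) = ∑ j, (s N * (2 : ℝ) ^ (u N j)) • w j := by
    intro N
    unfold pt
    rw [Finset.smul_sum]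
    exact Finset.sum_congr rfl fun j _ => smul_smul _ _ _
  have k1 : d • w' i - w i ∈ closure C := by
    refine isClosed_closure.mem_of_tendsto (hA.sub hB) (Eventually.of_forall fun m => ?_)
    rw [← hsA, ← hsB, ← smul_sub]
    exact h.cl_smul (hlo (φ m)) (hs _).le
  have k2 : M • w i - d • w' i ∈ closure C := by
    refine isClosed_closure.mem_of_tendsto ((hB.const_smul M).sub hA)
      (Eventually.of_forall fun m => ?_)
    rw [← hsA, ← hsB]
    have h3 : M • s (φ m) • pt w (u (φ m)) - s (φ m) • ∑ j, c (φ m) j • w' j =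
        s (φ m) • (M • pt w (u (φ m)) - ∑ j, c (φ m) j • w' j) := by
      rw [smul_sub, smul_comm M]
    rw [h3]
    exact h.cl_smul (hup (φ m)) (hs _).le
  obtain ⟨e, he⟩ := hext (d • w' i) (h.cl_smul hw'i hd0.le) M k2
  have he1 : 0 < e := by
    by_contra hcon
    have hcon' := not_lt.mp hcon
    rw [he] at k1
    have h4 : -(w i) ∈ closure C := by
      have h5 := h.cl_add k1 (h.cl_smul hwi (neg_nonneg.mpr hcon'))
      have h6 : e • w i - w i + (-e) • w i = -(w i) := by module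
      rwa [h6] at h5
    exact hwi0 (h.salient _ hwi h4)
  refine ⟨e / d, div_pos he1 hd0, ?_⟩
  have h7 : w' i = d⁻¹ • (d • w' i) := by rw [smul_smul, inv_mul_cancel₀ hd0.ne', one_smul]
  rw [h7, he, smul_smul]
  congr 1
  field_simp

end Pool.Agent.NTS.H56
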